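import Pool.Agent.Helper98.GX.St4

/-!
# Project GX (MP_140278_ag), module GLB: the glc places satisfy the equality
-/

set_option autoImplicit false

open scoped BigOperators

namespace Pool.Agent.Helper72.GX

open Pool.Agent.Helper98.GX
open Pool.Agent.Helper53.CX (DivVal LinSys IsNefCartier)

/-- nonzero constants have order `0` -/
private theorem ord_const {K : Type} [Field K] [Algebra ℂ K] (v : DivVal K) (c : ℂ) (hc : c ≠ 0) :
    v.ord (algebraMap ℂ K c) = 0 := by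
  have h0 : algebraMap ℂ K c ≠ 0 := by
    rw [Ne, map_eq_zero]
    exact hc
  have h0' : algebraMap ℂ K c⁻¹ ≠ 0 := by
    rw [Ne, map_eq_zero]
    exact inv_ne_zero hc
  obtain ⟨R, _, hR, _⟩ := v.exists_model
  have h1 := hR _ (R.algebraMap_mem c) h0
  have h2 := hR _ (R.algebraMap_mem c⁻¹) h0'
  have h3 := v.ord_mul _ _ h0 h0'
  have h4 : algebraMap ℂ K c * algebraMap ℂ K c⁻¹ = 1 := by
    rw [← map_mul, mul_inv_cancel₀ hc, map_one]
  have h5 := v.ord_mul 1 1 one_ne_zero one_ne_zero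
  rw [mul_one] at h5
  rw [h4] at h3
  omega

private theorem sec_add {K : Type} [Field K] [Algebra ℂ K] {V : NormalProj K} {r : ℕ}
    {B : ClassBasis V r} {n : ℕ} {L : LogCoord K n} (Fr : Frame B L) (x y : Fin (n + r) → ℂ) :
    Fr.sec (x + y) = Fr.sec x + Fr.sec y := by
  unfold Frame.sec
  rw [← Finset.sum_add_distrib]
  refine Finset.sum_congr rfl fun a _ => ?_
  rw [Pi.add_apply, map_add, add_mul]

private theorem sec_smul {K : Type} [Field K] [Algebra ℂ K] {V : NormalProj K} {r : ℕ}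
    {B : ClassBasis V r} {n : ℕ} {L : LogCoord K n} (Fr : Frame B L) (c : ℂ)
    (x : Fin (n + r) → ℂ) : Fr.sec (c • x) = algebraMap ℂ K c * Fr.sec x := by
  unfold Frame.sec
  rw [Finset.mul_sum]
  refine Finset.sum_congr rfl fun a _ => ?_
  rw [Pi.smul_apply, smul_eq_mul, map_mul, mul_assoc]

theorem hGLB (hSEC : StSEC) (hJLB : StJLB) (hLFR : StLFR) (hGLA : StGLA) : StGLB := by
  intro K _ _ V r B n L Fr Φ T hst hdet hgr had v hsum
  have hS := hSEC K V r B n L Fr
  refine hGLA (n + r) r Fr.bl Φ (fun x => v.ord (Fr.sec x)) (fun i => Fr.smin v (Φ.W i))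
    (Fr.Ad v) T ?_ ?_ ?_ hst hdet hgr had ?_ hsum
  · intro k x hx hx0 c hc
    have h1 := hS.1 k x hx hx0
    have h2 : algebraMap ℂ K c ≠ 0 := by
      rw [Ne, map_eq_zero]
      exact hc
    show v.ord (Fr.sec (c • x)) = v.ord (Fr.sec x)
    rw [sec_smul, v.ord_mul _ _ h2 h1, ord_const v c hc, zero_add]
  · intro k x hx y hy hx0 hy0 hxy
    show min (v.ord (Fr.sec x)) (v.ord (Fr.sec y)) ≤ v.ord (Fr.sec (x + y))
    have h1 := hS.1 k x hx hx0
    have h2 := hS.1 k y hy hy0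
    have h3 := hS.1 k (x + y) (Submodule.add_mem _ hx hy) hxy
    rw [sec_add] at h3 ⊢
    exact v.ord_add _ _ h1 h2 h3
  · intro i
    exact hS.2 v (Φ.bI i) (Φ.W i) (Φ.le i) (Φ.ne i)
  · intro T' hT' hg'
    obtain ⟨L'', Fr', _, hg, hv⟩ := hLFR K V r B n L Fr T' hT' hg'
    have h1 := (hJLB K n L'' v).1
    have h2 := hv v
    have h3 : ∑ a, v.ord (Fr'.g a) = ∑ a, v.ord (Fr.sec (T' a)) :=
      Finset.sum_congr rfl fun a _ => by rw [hg a]
    rw [h3] at h2
    show ∑ a, v.ord (Fr.sec (T' a)) ≤ ordOmega L v + 1 + ∑ a, v.ord (Fr.g a)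
    linarith

end Pool.Agent.Helper72.GX
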