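import Pool.Agent.Helper98.GX.St3

/-!
# Project GX (MP_140278_ag), module REG: the derivative of a section is a section
-/

set_option autoImplicit false

open scoped BigOperators

namespace Pool.Agent.Helper72.GX

open Pool.Agent.Helper98.GX
open Pool.Agent.Helper53.CX (DivVal LinSys IsNefCartier)

section
variable {K : Type} [Field K] [Algebra ℂ K]

/-- `x` is zero or has order at least `C` -/
private def Ge (q : DivVal K) (C : ℤ) (x : K) : Prop := x = 0 ∨ C ≤ q.ord x

private theorem ge_zero (q : DivVal K) (C : ℤ) : Ge q C 0 := Or.inl rfl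

private theorem ge_mono (q : DivVal K) {C C' : ℤ} {x : K} (h : Ge q C x) (hc : C' ≤ C) :
    Ge q C' x := by
  rcases h with h | h
  · exact Or.inl h
  · exact Or.inr (hc.trans h)

private theorem ge_add (q : DivVal K) {C : ℤ} {x y : K} (hx : Ge q C x) (hy : Ge q C y) :
    Ge q C (x + y) := by
  by_cases hx0 : x = 0
  · rw [hx0, zero_add]
    exact hy
  by_cases hy0 : y = 0
  · rw [hy0, add_zero]
    exact hx
  by_cases hxy : x + y = 0
  · exact Or.inl hxy
  · right
    have h1 := hx.resolve_left hx0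
    have h2 := hy.resolve_left hy0
    exact (le_min h1 h2).trans (q.ord_add x y hx0 hy0 hxy)

private theorem ge_mul (q : DivVal K) {C D : ℤ} {x y : K} (hx : Ge q C x) (hy : Ge q D y) :
    Ge q (C + D) (x * y) := by
  by_cases hx0 : x = 0
  · rw [hx0, zero_mul]
    exact ge_zero q _
  by_cases hy0 : y = 0
  · rw [hy0, mul_zero]
    exact ge_zero q _
  · right
    rw [q.ord_mul x y hx0 hy0]
    exact add_le_add (hx.resolve_left hx0) (hy.resolve_left hy0)

private theorem ge_sum (q : DivVal K) {C : ℤ} {ι : Type} (s : Finset ι) (x : ι → K)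
    (h : ∀ i ∈ s, Ge q C (x i)) : Ge q C (∑ i ∈ s, x i) := by
  classical
  induction s using Finset.induction_on with
  | empty => rw [Finset.sum_empty]; exact ge_zero q _
  | insert i s hi ih =>
    rw [Finset.sum_insert hi]
    exact ge_add q (h i (Finset.mem_insert_self i s))
      (ih fun j hj => h j (Finset.mem_insert_of_mem hj))

private theorem ord_one (q : DivVal K) : q.ord 1 = 0 := by
  have h5 := q.ord_mul 1 1 one_ne_zero one_ne_zero
  rw [mul_one] at h5
  omega

private theorem ord_const' (v : DivVal K) (c : ℂ) (hc : c ≠ 0) :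
    v.ord (algebraMap ℂ K c) = 0 := by
  have h0 : algebraMap ℂ K c ≠ 0 := by
    rw [Ne, map_eq_zero]
    exact hc
  have h0' : algebraMap ℂ K c⁻¹ ≠ 0 := by
    rw [Ne, map_eq_zero]
    exact inv_ne_zero hc
  obtain ⟨R, _, hR, _⟩ := v.exists_model
  have h1 := hR _ (R.algebraMap_mem c) h0
  have h2 := hR _ (R.algebraMap_mem c⁻¹) h0'
  have h3 := v.ord_mul _ _ h0 h0'
  have h4 : algebraMap ℂ K c * algebraMap ℂ K c⁻¹ = 1 := by
    rw [← map_mul, mul_inv_cancel₀ hc, map_one]
  rw [h4, ord_one] at h3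
  omega

private theorem ge_int (q : DivVal K) (m : ℤ) : Ge q 0 (m : K) := by
  by_cases h : (m : ℂ) = 0
  · left
    have h1 : ((m : ℤ) : K) = algebraMap ℂ K (m : ℂ) := (map_intCast (algebraMap ℂ K) m).symm
    rw [h1, h, map_zero]
  · right
    have h1 : ((m : ℤ) : K) = algebraMap ℂ K (m : ℂ) := (map_intCast (algebraMap ℂ K) m).symm
    rw [h1, ord_const' q _ h]

private theorem ord_inv (q : DivVal K) (x : K) (hx : x ≠ 0) : q.ord x⁻¹ = - q.ord x := by
  have h := q.ord_mul x x⁻¹ hx (inv_ne_zero hx)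
  rw [mul_inv_cancel₀ hx, ord_one] at h
  omega

private theorem ord_div (q : DivVal K) (x y : K) (hx : x ≠ 0) (hy : y ≠ 0) :
    q.ord (x / y) = q.ord x - q.ord y := by
  rw [div_eq_mul_inv, q.ord_mul x y⁻¹ hx (inv_ne_zero hy), ord_inv q y hy]
  ring

private theorem ord_pow (q : DivVal K) (x : K) (hx : x ≠ 0) (k : ℕ) :
    q.ord (x ^ k) = k * q.ord x := by
  induction k with
  | zero => rw [pow_zero, ord_one]; simp
  | succ k ih =>
    rw [pow_succ, q.ord_mul _ _ (pow_ne_zero k hx) hx, ih]
    push_cast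
    ring

private theorem ord_zpow (q : DivVal K) (x : K) (hx : x ≠ 0) (k : ℤ) :
    q.ord (x ^ k) = k * q.ord x := by
  rcases Int.eq_nat_or_neg k with ⟨n, hn | hn⟩
  · rw [hn, zpow_natCast, ord_pow q x hx]
  · rw [hn, zpow_neg, zpow_natCast, ord_inv q _ (pow_ne_zero n hx), ord_pow q x hx]
    ring

omit [Algebra ℂ K] in
private theorem prod_ne {ι : Type} (s : Finset ι) (G : ι → K) (m : ι → ℤ) (hG : ∀ i, G i ≠ 0) :
    (∏ i ∈ s, G i ^ m i) ≠ 0 :=
  Finset.prod_ne_zero_iff.2 fun i _ => zpow_ne_zero _ (hG i)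

private theorem ord_prod (q : DivVal K) {ι : Type} (s : Finset ι) (G : ι → K) (m : ι → ℤ)
    (hG : ∀ i, G i ≠ 0) : q.ord (∏ i ∈ s, G i ^ m i) = ∑ i ∈ s, m i * q.ord (G i) := by
  classical
  induction s using Finset.induction_on with
  | empty => rw [Finset.prod_empty, Finset.sum_empty, ord_one]
  | insert i s hi ih =>
    rw [Finset.prod_insert hi, Finset.sum_insert hi,
      q.ord_mul _ _ (zpow_ne_zero _ (hG i)) (prod_ne s G m hG), ih, ord_zpow q _ (hG i)]

private theorem der_zpow (D : Derivation ℂ K K) (x : K) (hx : x ≠ 0) (k : ℤ) :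
    D (x ^ k) = x ^ k * ((k : K) * (D x / x)) := by
  rw [D.leibniz_zpow, zsmul_eq_mul, smul_eq_mul, zpow_sub_one₀ hx]
  field_simp

private theorem der_prod (D : Derivation ℂ K K) {ι : Type} (s : Finset ι) (G : ι → K) (m : ι → ℤ)
    (hG : ∀ i, G i ≠ 0) : D (∏ i ∈ s, G i ^ m i) =
    (∏ i ∈ s, G i ^ m i) * ∑ i ∈ s, (m i : K) * (D (G i) / G i) := by
  classical
  induction s using Finset.induction_on with
  | empty => rw [Finset.prod_empty, Finset.sum_empty, D.map_one_eq_zero, mul_zero]
  | insert i s hi ih =>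
    rw [Finset.prod_insert hi, Finset.sum_insert hi, D.leibniz, ih, der_zpow D _ (hG i),
      smul_eq_mul, smul_eq_mul]
    ring

end

theorem hREG (hBAS : StBAS) (hLPX : StLPX) (hCRA : StCRA) (hUNQ : StUNQ) : StREG := by
  intro K _ _ V r B n L Fr d c h1 q hq m f a hf hpos hne
  classical
  obtain ⟨β, hβ, hqβ⟩ := hBAS K V r B n L Fr q hq
  obtain ⟨L', e, hch⟩ := hLPX K V r B n L Fr β hβ
  set G : Fin r → K := fun l => Fr.g (β l) with hGd
  have hG0 : ∀ l, G l ≠ 0 := fun l => Fr.ne (β l)
  have hGo : ∀ l, q.ord (G l) = - (B.H l).div q := by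
    intro l
    have h := Fr.div_other (β l) q hq (hqβ l)
    rw [hβ] at h
    show q.ord (Fr.g (β l)) = _
    omega
  -- orders of the coordinates
  have hzo : ∀ j, q.ord (L'.z j) = if q = Fr.pr (e j) then 1 else 0 := by
    intro j
    rw [hch.z_eq j, ord_div q _ _ (Fr.ne _) (Fr.ne _)]
    have h := hGo (Fr.bl (e j))
    have h' : q.ord (Fr.g (β (Fr.bl (e j)))) = - (B.H (Fr.bl (e j))).div q := h
    split_ifs with hj
    · have h2 := Fr.div_self (e j)
      rw [← hj] at h2
      omega
    · have h2 := Fr.div_other (e j) q hq hj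
      omega
  have hz0 : ∀ j, 0 ≤ q.ord (L'.z j) := by
    intro j
    rw [hzo j]
    split_ifs <;> norm_num
  have hom : ordOmega L' q = - ∑ j, q.ord (L'.z j) := by
    rw [hch.omega q]
    by_cases hb : ∃ b, q = Fr.pr b
    · obtain ⟨b, hb⟩ := hb
      have hbβ : b ≠ β (Fr.bl b) := by
        intro h
        refine hqβ (Fr.bl b) ?_
        rw [← h]
        exact hb
      obtain ⟨j0, hj0⟩ := (hch.range b).2 hbβ
      have h2 : ∑ j, q.ord (L'.z j) = 1 := by
        rw [Finset.sum_eq_single j0]
        · rw [hzo j0, hj0, if_pos hb]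
        · intro j _ hj
          rw [hzo j, if_neg]
          intro h3
          apply hj
          apply hch.inj
          rw [hj0]
          apply Fr.pr_inj
          rw [← h3, hb]
        · intro h
          exact absurd (Finset.mem_univ _) h
      rw [h2, hb]
      exact Fr.omega_pr b
    · have h2 : ∑ j, q.ord (L'.z j) = 0 := by
        apply Finset.sum_eq_zero
        intro j _
        rw [hzo j, if_neg]
        intro h3
        exact hb ⟨e j, h3⟩
      rw [h2, neg_zero]
      exact Fr.omega_other q hq fun b hb' => hb ⟨b, hb'⟩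
  have hcr := hCRA K n L' q hz0 hom
  -- the unit
  set P : K := ∏ l, G l ^ m l with hP
  have hP0 : P ≠ 0 := prod_ne _ G m hG0
  set M : ℤ := ∑ k, m k * (B.H k).div q with hM
  have hPo : q.ord P = - M := by
    rw [hP, ord_prod q _ G m hG0, hM, ← Finset.sum_neg_distrib]
    refine Finset.sum_congr rfl fun l _ => ?_
    rw [hGo l]
    ring
  set φ : K := f / P with hφ
  have hφ0 : φ ≠ 0 := div_ne_zero hf hP0
  have hφo : 0 ≤ q.ord φ := by
    rw [hφ, ord_div q _ _ hf hP0, hPo]
    linarith
  have hfφ : f = φ * P := by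
    rw [hφ, div_mul_cancel₀ _ hP0]
  have hθ : ∀ j, Ge q (q.ord (L'.z j)) (L'.θ j φ) := by
    intro j
    by_cases h : L'.θ j φ = 0
    · exact Or.inl h
    · exact Or.inr (hcr φ j hφo h)
  -- logarithmic derivatives
  have hlog : ∀ b, d a (Fr.g b) / Fr.g b = (if a = b then 1 / Fr.g b else 0) - c a (Fr.bl b) := by
    intro b
    have h := h1 a b
    have hb := Fr.ne b
    have h2 : d a (Fr.g b) = (if a = b then 1 else 0) - c a (Fr.bl b) * Fr.g b := by
      rw [← h]; ring
    rw [h2, sub_div, mul_div_assoc, div_self hb, mul_one]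
    congr 1
    split_ifs <;> simp
  have hlogz : ∀ j, d a (L'.z j) / L'.z j = (if a = e j then 1 / Fr.g (e j) else 0) -
      (if a = β (Fr.bl (e j)) then 1 / Fr.g (β (Fr.bl (e j))) else 0) := by
    intro j
    have e1 := hlog (e j)
    have e2 := hlog (β (Fr.bl (e j)))
    rw [hβ] at e2
    have n1 := Fr.ne (e j)
    have n2 := Fr.ne (β (Fr.bl (e j)))
    have e3 : d a (L'.z j) / L'.z j = d a (Fr.g (e j)) / Fr.g (e j) -
        d a (Fr.g (β (Fr.bl (e j)))) / Fr.g (β (Fr.bl (e j))) := by
      rw [hch.z_eq j, (d a).leibniz_div, smul_eq_mul, smul_eq_mul, smul_eq_mul]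
      field_simp
    rw [e3, e1, e2]
    ring
  -- the derivative of `φ`
  set Ha : ℤ := (B.H (Fr.bl a)).div q with hHa
  have hdφ : Ge q Ha (d a φ) := by
    rw [hUNQ K n L' (d a) φ]
    refine ge_sum q _ _ fun j _ => ?_
    rw [hlogz j, sub_mul]
    have t1 : Ge q Ha ((if a = e j then 1 / Fr.g (e j) else 0) * L'.θ j φ) := by
      split_ifs with h
      · have hg : q.ord (1 / Fr.g (e j)) = - q.ord (Fr.g (e j)) := by
          rw [one_div, ord_inv q _ (Fr.ne _)]
        have h3 := ge_mul q (Or.inr (le_of_eq hg.symm) : Ge q (- q.ord (Fr.g (e j))) _) (hθ j)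
        refine ge_mono q h3 ?_
        have h4 : q.ord (L'.z j) = q.ord (Fr.g (e j)) - q.ord (Fr.g (β (Fr.bl (e j)))) := by
          rw [hch.z_eq j, ord_div q _ _ (Fr.ne _) (Fr.ne _)]
        have h5 : q.ord (Fr.g (β (Fr.bl (e j)))) = - (B.H (Fr.bl (e j))).div q :=
          hGo (Fr.bl (e j))
        rw [hHa, h]
        omega
      · rw [zero_mul]
        exact ge_zero q _
    have t2 : Ge q Ha ((if a = β (Fr.bl (e j)) then 1 / Fr.g (β (Fr.bl (e j))) else 0) *
        L'.θ j φ) := by
      split_ifs with h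
      · have hg : q.ord (1 / Fr.g (β (Fr.bl (e j)))) = (B.H (Fr.bl (e j))).div q := by
          rw [one_div, ord_inv q _ (Fr.ne _)]
          have h5 : q.ord (Fr.g (β (Fr.bl (e j)))) = - (B.H (Fr.bl (e j))).div q :=
            hGo (Fr.bl (e j))
          omega
        have h3 := ge_mul q (Or.inr (le_of_eq hg.symm) : Ge q ((B.H (Fr.bl (e j))).div q) _) (hθ j)
        refine ge_mono q h3 ?_
        have h6 : Fr.bl a = Fr.bl (e j) := by
          rw [h, hβ]
        rw [hHa, h6]
        have := hz0 j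
        omega
      · rw [zero_mul]
        exact ge_zero q _
    have t3 := ge_add q t1 (ge_mul q (ge_int q (-1)) (by simpa using t2 :
      Ge q Ha ((if a = β (Fr.bl (e j)) then 1 / Fr.g (β (Fr.bl (e j))) else 0) * L'.θ j φ)) |>
        fun h => ge_mono q h (by omega : Ha ≤ 0 + Ha))
    have e4 : (if a = e j then 1 / Fr.g (e j) else 0) * L'.θ j φ + ((-1 : ℤ) : K) *
        ((if a = β (Fr.bl (e j)) then 1 / Fr.g (β (Fr.bl (e j))) else 0) * L'.θ j φ) =
        (if a = e j then 1 / Fr.g (e j) else 0) * L'.θ j φ -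
        (if a = β (Fr.bl (e j)) then 1 / Fr.g (β (Fr.bl (e j))) else 0) * L'.θ j φ := by
      push_cast
      ring
    rw [← e4]
    exact t3
  -- the formula
  have hform : d a f + (∑ k, (m k : K) * c a k) * f =
      P * d a φ + f * ∑ l, (m l : K) * (if a = β l then 1 / G l else 0) := by
    have e1 : d a P = P * ∑ l, (m l : K) * (d a (G l) / G l) := der_prod (d a) _ G m hG0
    have e2 : ∑ l, (m l : K) * (d a (G l) / G l) =
        ∑ l, (m l : K) * (if a = β l then 1 / G l else 0) - ∑ l, (m l : K) * c a l := by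
      rw [← Finset.sum_sub_distrib]
      refine Finset.sum_congr rfl fun l _ => ?_
      have h := hlog (β l)
      rw [hβ] at h
      have h' : d a (G l) / G l = (if a = β l then 1 / G l else 0) - c a l := h
      rw [h']
      ring
    have e3 : d a f = φ * d a P + P * d a φ := by
      conv_lhs => rw [hfφ]
      rw [(d a).leibniz, smul_eq_mul, smul_eq_mul]
    rw [e3, e1, e2]
    conv_lhs => rw [hfφ]
    conv_rhs => rw [hfφ]
    ring
  have hfo : Ge q (- M) f := Or.inr (by linarith)
  have hsum : Ge q Ha (∑ l, (m l : K) * (if a = β l then 1 / G l else 0)) := by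
    refine ge_sum q _ _ fun l _ => ?_
    have t : Ge q Ha (if a = β l then 1 / G l else 0) := by
      split_ifs with h
      · right
        rw [one_div, ord_inv q _ (hG0 l), hGo l]
        have h6 : Fr.bl a = l := by
          rw [h, hβ]
        rw [hHa, h6]
        omega
      · exact ge_zero q _
    exact ge_mono q (ge_mul q (ge_int q (m l)) t) (by omega)
  have hPg : Ge q (- M) P := Or.inr (le_of_eq hPo.symm)
  have htot : Ge q (- M + Ha) (d a f + (∑ k, (m k : K) * c a k) * f) := by
    rw [hform]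
    exact ge_add q (ge_mul q hPg hdφ) (ge_mul q hfo hsum)
  have := htot.resolve_left hne
  linarith

end Pool.Agent.Helper72.GX
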